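import Mathlib

/-!
# Infinitely many `m` with `O(m)` nonempty and `3 ∣ #O(m)`

Put `F(x, y, z) = x² + y² + z² + 3xyz`.  Minimal `m`-Markoff triples `(a, b, c)` correspond, via
`φ = c - 3ab`, to the solutions of `F(a, b, φ) = m` with `1 ≤ a ≤ b`, `φ ≥ 0`.  If `m` is not a sum
of two squares and is not of the form `F(u, u, v)`, then all solutions have three distinct positive
entries and the symmetric group shows that `#O(m)` is three times the number of unordered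
solutions.  For `m = F(1, y, z)` with `y ≡ z ≡ 1` modulo `9` one has `m ≡ 6` modulo `9`, so `m` is
not a sum of two squares, and a counting argument produces infinitely many such `m` which are not
of the form `F(u, u, v)`: up to `325 n⁴` there are at most `93 n³` values `F(u, u, v)`, but more
than `93 n³` values `F(1, y, z)` with `9 n² ≤ y ≤ 18 n²` and `z ≤ 900 n`.
-/

set_option autoImplicit false

open Finset

namespace Pool.Agent.Results.MP_208885_nt.InfinitelyMany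

/-- `(a, b, c)` is a minimal `m`-Markoff triple. -/
def IsMinimal (m a b c : ℕ) : Prop :=
  0 < a ∧ 0 < b ∧ 0 < c ∧ a ^ 2 + b ^ 2 + c ^ 2 = 3 * a * b * c + m ∧
    a ≤ b ∧ b ≤ c ∧ 3 * (a : ℤ) * (b : ℤ) - (c : ℤ) ≤ 0

/-- The set `O(m)` of minimal `m`-Markoff triples. -/
def minimalTriples (m : ℕ) : Set (ℕ × ℕ × ℕ) := {t | IsMinimal m t.1 t.2.1 t.2.2}

/-! ### The symmetric form -/

lemma minimal_iff (m a b c : ℕ) :
    IsMinimal m a b c ↔ 0 < a ∧ a ≤ b ∧ ∃ p : ℕ, c = 3 * a * b + p ∧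
      a ^ 2 + b ^ 2 + p ^ 2 + 3 * a * b * p = m := by
  unfold IsMinimal
  constructor
  · rintro ⟨ha, hb, hc, he, hab, hbc, hm⟩
    refine ⟨ha, hab, c - 3 * a * b, ?_, ?_⟩
    · have : 3 * a * b ≤ c := by
        have h : (3 * (a : ℤ) * (b : ℤ)) ≤ (c : ℤ) := by linarith
        exact_mod_cast h
      omega
    · have h3 : 3 * a * b ≤ c := by
        have h : (3 * (a : ℤ) * (b : ℤ)) ≤ (c : ℤ) := by linarith
        exact_mod_cast h
      obtain ⟨p, hp⟩ := Nat.exists_eq_add_of_le h3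
      have hp' : c - 3 * a * b = p := by omega
      rw [hp']
      subst hp
      nlinarith [he]
  · rintro ⟨ha, hab, p, hc, he⟩
    have hb : 0 < b := lt_of_lt_of_le ha hab
    have h1 : b ≤ 3 * a * b := by nlinarith
    refine ⟨ha, hb, by omega, ?_, hab, by omega, ?_⟩
    · subst hc
      nlinarith [he]
    · subst hc
      push_cast
      have : (0 : ℤ) ≤ (p : ℤ) := Int.natCast_nonneg p
      linarith

/-- Solutions with `0 < x < y < z`. -/
def sols (m : ℕ) : Finset (ℕ × ℕ × ℕ) :=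
  ((range (m + 1)) ×ˢ (range (m + 1)) ×ˢ (range (m + 1))).filter
    (fun t => 0 < t.1 ∧ t.1 < t.2.1 ∧ t.2.1 < t.2.2 ∧
      t.1 ^ 2 + t.2.1 ^ 2 + t.2.2 ^ 2 + 3 * t.1 * t.2.1 * t.2.2 = m)

lemma mem_sols (m x y z : ℕ) :
    (x, y, z) ∈ sols m ↔ 0 < x ∧ x < y ∧ y < z ∧
      x ^ 2 + y ^ 2 + z ^ 2 + 3 * x * y * z = m := by
  unfold sols
  simp only [mem_filter, mem_product, mem_range]
  constructor
  · rintro ⟨_, h⟩
    exact h
  · intro h
    refine ⟨⟨?_, ?_, ?_⟩, h⟩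
    · have : x ≤ x ^ 2 := Nat.le_self_pow (by norm_num) x
      have := Nat.zero_le (3 * x * y * z)
      have := Nat.zero_le (y ^ 2)
      have := Nat.zero_le (z ^ 2)
      omega
    · have : y ≤ y ^ 2 := Nat.le_self_pow (by norm_num) y
      have := Nat.zero_le (3 * x * y * z)
      have := Nat.zero_le (x ^ 2)
      have := Nat.zero_le (z ^ 2)
      omega
    · have : z ≤ z ^ 2 := Nat.le_self_pow (by norm_num) z
      have := Nat.zero_le (3 * x * y * z)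
      have := Nat.zero_le (y ^ 2)
      have := Nat.zero_le (x ^ 2)
      omega

def g1 (t : ℕ × ℕ × ℕ) : ℕ × ℕ × ℕ := (t.1, t.2.1, 3 * t.1 * t.2.1 + t.2.2)
def g2 (t : ℕ × ℕ × ℕ) : ℕ × ℕ × ℕ := (t.1, t.2.2, 3 * t.1 * t.2.2 + t.2.1)
def g3 (t : ℕ × ℕ × ℕ) : ℕ × ℕ × ℕ := (t.2.1, t.2.2, 3 * t.2.1 * t.2.2 + t.1)

lemma triples_eq (m : ℕ) (h1 : ∀ x y : ℕ, x ^ 2 + y ^ 2 ≠ m)
    (h2 : ∀ u v : ℕ, 0 < u → 0 < v → 2 * u ^ 2 + v ^ 2 + 3 * u ^ 2 * v ≠ m) :
    minimalTriples m = ↑(((sols m).image g1) ∪ ((sols m).image g2) ∪ ((sols m).image g3)) := by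
  ext ⟨a, b, c⟩
  simp only [minimalTriples, Set.mem_ofPred_eq, coe_union, coe_image, Set.mem_union, Set.mem_image,
    mem_coe, Prod.exists, g1, g2, g3, mem_sols, Prod.mk.injEq]
  rw [minimal_iff]
  constructor
  · rintro ⟨ha, hab, p, hc, he⟩
    have hb : 0 < b := lt_of_lt_of_le ha hab
    have hp : 0 < p := by
      rcases Nat.eq_zero_or_pos p with h | h
      · exfalso
        subst h
        exact h1 a b (by simpa using he)
      · exact h
    have hab' : a ≠ b := by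
      rintro rfl
      exact h2 a p ha hp (by rw [← he]; ring)
    have hap : p ≠ a := by
      rintro rfl
      exact h2 p b hp hb (by rw [← he]; ring)
    have hbp : p ≠ b := by
      rintro rfl
      exact h2 p a hp ha (by rw [← he]; ring)
    have hlt : a < b := lt_of_le_of_ne hab hab'
    rcases lt_or_gt_of_ne hap with h | h
    · right
      exact ⟨p, a, b, ⟨hp, h, hlt, by rw [← he]; ring⟩, rfl, rfl, hc.symm⟩
    · rcases lt_or_gt_of_ne hbp with h' | h'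
      · left; right
        exact ⟨a, p, b, ⟨ha, h, h', by rw [← he]; ring⟩, rfl, rfl, hc.symm⟩
      · left; left
        exact ⟨a, b, p, ⟨ha, hlt, h', he⟩, rfl, rfl, hc.symm⟩
  · rintro ((⟨x, y, z, ⟨hx, hxy, hyz, he⟩, rfl, rfl, hc⟩ | ⟨x, y, z, ⟨hx, hxy, hyz, he⟩, rfl, rfl, hc⟩) |
      ⟨x, y, z, ⟨hx, hxy, hyz, he⟩, rfl, rfl, hc⟩)
    · exact ⟨hx, hxy.le, z, hc.symm, he⟩
    · exact ⟨hx, (hxy.trans hyz).le, y, hc.symm, by rw [← he]; ring⟩
    · exact ⟨hx.trans hxy, hyz.le, x, hc.symm, by rw [← he]; ring⟩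

lemma three_dvd (m : ℕ) (h1 : ∀ x y : ℕ, x ^ 2 + y ^ 2 ≠ m)
    (h2 : ∀ u v : ℕ, 0 < u → 0 < v → 2 * u ^ 2 + v ^ 2 + 3 * u ^ 2 * v ≠ m) :
    (minimalTriples m).Finite ∧ 3 ∣ (minimalTriples m).ncard := by
  rw [triples_eq m h1 h2]
  refine ⟨Finset.finite_toSet _, ?_⟩
  rw [Set.ncard_coe_finset]
  have i1 : Set.InjOn g1 (sols m : Set (ℕ × ℕ × ℕ)) := by
    rintro ⟨x, y, z⟩ _ ⟨x', y', z'⟩ _ h
    simp only [g1, Prod.mk.injEq] at h
    obtain ⟨rfl, rfl, h⟩ := h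
    simp only [Prod.mk.injEq, true_and]
    omega
  have i2 : Set.InjOn g2 (sols m : Set (ℕ × ℕ × ℕ)) := by
    rintro ⟨x, y, z⟩ _ ⟨x', y', z'⟩ _ h
    simp only [g2, Prod.mk.injEq] at h
    obtain ⟨rfl, rfl, h⟩ := h
    simp only [Prod.mk.injEq, true_and, and_true]
    omega
  have i3 : Set.InjOn g3 (sols m : Set (ℕ × ℕ × ℕ)) := by
    rintro ⟨x, y, z⟩ _ ⟨x', y', z'⟩ _ h
    simp only [g3, Prod.mk.injEq] at h
    obtain ⟨rfl, rfl, h⟩ := h
    simp only [Prod.mk.injEq, and_true]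
    omega
  have d12 : Disjoint ((sols m).image g1) ((sols m).image g2) := by
    rw [Finset.disjoint_left]
    rintro ⟨a, b, c⟩ ha hb
    simp only [mem_image, Prod.exists, g1, g2, mem_sols, Prod.mk.injEq] at ha hb
    obtain ⟨x, y, z, ⟨hx, hxy, hyz, he⟩, rfl, rfl, rfl⟩ := ha
    obtain ⟨x', y', z', ⟨hx', hxy', hyz', he'⟩, rfl, rfl, h⟩ := hb
    omega
  have d13 : Disjoint ((sols m).image g1 ∪ (sols m).image g2) ((sols m).image g3) := by
    rw [Finset.disjoint_left]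
    rintro ⟨a, b, c⟩ ha hb
    rw [mem_union] at ha
    simp only [mem_image, Prod.exists, g1, g2, g3, mem_sols, Prod.mk.injEq] at ha hb
    obtain ⟨x', y', z', ⟨hx', hxy', hyz', he'⟩, rfl, rfl, rfl⟩ := hb
    rcases ha with ⟨x, y, z, ⟨hx, hxy, hyz, he⟩, rfl, rfl, h⟩ | ⟨x, y, z, ⟨hx, hxy, hyz, he⟩, rfl, rfl, h⟩
    · omega
    · omega
  rw [Finset.card_union_of_disjoint d13, Finset.card_union_of_disjoint d12,
    Finset.card_image_of_injOn i1, Finset.card_image_of_injOn i2, Finset.card_image_of_injOn i3]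
  omega

/-! ### Sums of two squares modulo 9 -/

lemma not_two_squares (m : ℕ) (hm : m % 9 = 6) (x y : ℕ) : x ^ 2 + y ^ 2 ≠ m := by
  rintro rfl
  have hx : x % 9 < 9 := Nat.mod_lt _ (by norm_num)
  have hy : y % 9 < 9 := Nat.mod_lt _ (by norm_num)
  rw [Nat.add_mod, Nat.pow_mod, Nat.pow_mod y] at hm
  generalize x % 9 = r at hm hx
  generalize y % 9 = s at hm hy
  interval_cases r <;> interval_cases s <;> simp at hm

/-! ### Counting the bad values -/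

/-- Contains all pairs `(u, v)` with `F(u, u, v) ≤ 325 n⁴`. -/
def badPairs (n : ℕ) : Finset (ℕ × ℕ) :=
  (Icc 1 (2 * n) ×ˢ Icc 1 (19 * n ^ 2)) ∪
    ((Ioc (2 * n) (11 * n ^ 2)).biUnion
      (fun u => (Icc 1 (109 * n ^ 4 / u ^ 2)).image (fun v => (u, v))))

lemma mem_badPairs (n u v : ℕ) (hu : 0 < u) (hv : 0 < v)
    (h : 2 * u ^ 2 + v ^ 2 + 3 * u ^ 2 * v ≤ 325 * n ^ 4) : (u, v) ∈ badPairs n := by
  unfold badPairs
  have h3 : u ^ 2 * v ≤ 109 * n ^ 4 := by nlinarith [Nat.zero_le (u ^ 2), Nat.zero_le (v ^ 2)]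
  rw [mem_union]
  by_cases hc : u ≤ 2 * n
  · left
    simp only [mem_product, mem_Icc]
    refine ⟨⟨hu, hc⟩, hv, ?_⟩
    have hv2 : v ^ 2 ≤ 325 * n ^ 4 := by nlinarith [Nat.zero_le (u ^ 2), Nat.zero_le (u ^ 2 * v)]
    by_contra hcon
    push Not at hcon
    have : (19 * n ^ 2) ^ 2 < v ^ 2 := Nat.pow_lt_pow_left hcon (by norm_num)
    nlinarith [Nat.zero_le (n ^ 4)]
  · right
    push Not at hc
    simp only [mem_biUnion, mem_Ioc, mem_image, mem_Icc, Prod.mk.injEq]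
    refine ⟨u, ⟨hc, ?_⟩, v, ⟨hv, ?_⟩, rfl, rfl⟩
    · by_contra hcon
      push Not at hcon
      have h4 : (11 * n ^ 2) ^ 2 < u ^ 2 := Nat.pow_lt_pow_left hcon (by norm_num)
      have h5 : u ^ 2 ≤ u ^ 2 * v := Nat.le_mul_of_pos_right _ hv
      nlinarith [Nat.zero_le (n ^ 4)]
    · rw [Nat.le_div_iff_mul_le (by positivity)]
      linarith [mul_comm (u ^ 2) v]

lemma card_badPairs (n : ℕ) (hn : 0 < n) : (badPairs n).card ≤ 93 * n ^ 3 := by
  unfold badPairs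
  refine (card_union_le _ _).trans ?_
  have h1 : (Icc 1 (2 * n) ×ˢ Icc 1 (19 * n ^ 2)).card = 38 * n ^ 3 := by
    rw [card_product, Nat.card_Icc, Nat.card_Icc]
    simp only [Nat.add_sub_cancel]
    ring
  have h2 : ((Ioc (2 * n) (11 * n ^ 2)).biUnion
      (fun u => (Icc 1 (109 * n ^ 4 / u ^ 2)).image (fun v => (u, v)))).card ≤ 55 * n ^ 3 := by
    refine (card_biUnion_le).trans ?_
    have h3 : ∀ u ∈ Ioc (2 * n) (11 * n ^ 2),
        ((Icc 1 (109 * n ^ 4 / u ^ 2)).image (fun v => (u, v))).card ≤ 109 * n ^ 4 / u ^ 2 := by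
      intro u _
      refine card_image_le.trans ?_
      rw [Nat.card_Icc]
      simp
    refine (sum_le_sum h3).trans ?_
    have h4 : ((∑ u ∈ Ioc (2 * n) (11 * n ^ 2), 109 * n ^ 4 / u ^ 2 : ℕ) : ℝ) ≤
        ((55 * n ^ 3 : ℕ) : ℝ) := by
      push_cast
      have h5 : ∀ u ∈ Ioc (2 * n) (11 * n ^ 2),
          (((109 * n ^ 4 / u ^ 2 : ℕ)) : ℝ) ≤ 109 * (n : ℝ) ^ 4 * ((u : ℝ) ^ 2)⁻¹ := by
        intro u _
        refine Nat.cast_div_le.trans ?_
        push_cast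
        rw [div_eq_mul_inv]
      refine (sum_le_sum h5).trans ?_
      rw [← mul_sum]
      have hle : 2 * n ≤ 11 * n ^ 2 := by nlinarith
      have h6 := sum_Ioc_inv_sq_le_sub (α := ℝ) (k := 2 * n) (n := 11 * n ^ 2) (by omega) hle
      have h7 : (0 : ℝ) ≤ (((11 * n ^ 2 : ℕ)) : ℝ)⁻¹ := by positivity
      have hn' : (0 : ℝ) < (n : ℝ) := by exact_mod_cast hn
      calc 109 * (n : ℝ) ^ 4 * ∑ i ∈ Ioc (2 * n) (11 * n ^ 2), ((i : ℝ) ^ 2)⁻¹
          ≤ 109 * (n : ℝ) ^ 4 * (((2 * n : ℕ) : ℝ)⁻¹) := by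
            apply mul_le_mul_of_nonneg_left _ (by positivity)
            linarith
        _ = 109 / 2 * (n : ℝ) ^ 3 := by
            push_cast
            field_simp
        _ ≤ 55 * (n : ℝ) ^ 3 := by
            have : (0 : ℝ) ≤ (n : ℝ) ^ 3 := by positivity
            linarith
    exact_mod_cast h4
  omega

/-! ### Counting the good values -/

/-- The value `F(1, y, z)` with `y = 9 (n² + i) + 1` and `z = 9 j + 1`. -/
def val (n : ℕ) (t : ℕ × ℕ) : ℕ :=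
  1 + (9 * (n ^ 2 + t.1) + 1) ^ 2 + (9 * t.2 + 1) ^ 2 +
    3 * (9 * (n ^ 2 + t.1) + 1) * (9 * t.2 + 1)

def grid (n : ℕ) : Finset (ℕ × ℕ) := range (n ^ 2) ×ˢ range (100 * n)

lemma card_grid (n : ℕ) : (grid n).card = 100 * n ^ 3 := by
  unfold grid
  rw [card_product, card_range, card_range]
  ring

lemma val_le (n : ℕ) (hn : 100000 ≤ n) (t : ℕ × ℕ) (ht : t ∈ grid n) : val n t ≤ 325 * n ^ 4 := by
  obtain ⟨i, j⟩ := t
  simp only [grid, mem_product, mem_range] at ht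
  obtain ⟨hi, hj⟩ := ht
  simp only [val]
  have hy : 9 * (n ^ 2 + i) + 1 ≤ 18 * n ^ 2 := by omega
  have hz : 9 * j + 1 ≤ 900 * n := by omega
  have h1 : (9 * (n ^ 2 + i) + 1) ^ 2 ≤ (18 * n ^ 2) ^ 2 := Nat.pow_le_pow_left hy 2
  have h2 : (9 * j + 1) ^ 2 ≤ (900 * n) ^ 2 := Nat.pow_le_pow_left hz 2
  have h3 : (9 * (n ^ 2 + i) + 1) * (9 * j + 1) ≤ (18 * n ^ 2) * (900 * n) := Nat.mul_le_mul hy hz
  have h4 : 3 * (9 * (n ^ 2 + i) + 1) * (9 * j + 1) = 3 * ((9 * (n ^ 2 + i) + 1) * (9 * j + 1)) := by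
    ring
  have h5 : 100000 * n ^ 3 ≤ n ^ 4 := by
    calc 100000 * n ^ 3 ≤ n * n ^ 3 := Nat.mul_le_mul_right _ hn
      _ = n ^ 4 := by ring
  have h6 : n ^ 2 * 100000 ≤ n ^ 3 := by
    calc n ^ 2 * 100000 ≤ n ^ 2 * n := Nat.mul_le_mul_left _ hn
      _ = n ^ 3 := by ring
  have h7 : 1 ≤ n ^ 2 := Nat.one_le_pow _ _ (by omega)
  have e1 : (18 * n ^ 2) ^ 2 = 324 * n ^ 4 := by ring
  have e2 : (900 * n) ^ 2 = 810000 * n ^ 2 := by ring
  have e3 : (18 * n ^ 2) * (900 * n) = 16200 * n ^ 3 := by ring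
  rw [e1] at h1
  rw [e2] at h2
  rw [e3] at h3
  rw [h4]
  omega

/-- The points of the grid whose value is taken again. -/
def coll (n : ℕ) : Finset (ℕ × ℕ) :=
  (grid n).filter (fun t => ∃ t' ∈ grid n, t' ≠ t ∧ val n t' = val n t)

def psi (n : ℕ) (w : ℤ × ℕ × ℕ) : ℕ × ℕ :=
  ((((((5 * ((9 * (w.2.1 : ℤ) + 1) ^ 2 - (9 * (w.2.2 : ℤ) + 1) ^ 2)) / w.1 + w.1) / 2 -
    3 * (9 * (w.2.1 : ℤ) + 1)) / 2 - 1) / 9 - (n : ℤ) ^ 2).toNat, w.2.1)

lemma coll_subset (n : ℕ) (hn : 0 < n) (H : ℤ) (hH : 112500 ≤ H) :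
    coll n ⊆ (Icc (-H) H ×ˢ range (100 * n) ×ˢ range (100 * n)).image (psi n) := by
  intro tt h
  unfold coll at h
  have h' := (mem_filter.mp h)
  obtain ⟨i, j⟩ := tt
  obtain ⟨hg, ⟨i', j'⟩, hg', hne, hval⟩ := h'
  obtain ⟨hi, hj⟩ := mem_product.mp hg
  obtain ⟨hi', hj'⟩ := mem_product.mp hg'
  rw [mem_range] at hi hj hi' hj'
  simp only [mem_image, mem_product, mem_Icc, mem_range, Prod.exists]
  -- integers
  set y : ℤ := 9 * ((n : ℤ) ^ 2 + i) + 1 with hy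
  set z : ℤ := 9 * (j : ℤ) + 1 with hz
  set y' : ℤ := 9 * ((n : ℤ) ^ 2 + i') + 1 with hy'
  set z' : ℤ := 9 * (j' : ℤ) + 1 with hz'
  have hv : 1 + y' ^ 2 + z' ^ 2 + 3 * y' * z' = 1 + y ^ 2 + z ^ 2 + 3 * y * z := by
    have := congrArg (fun k : ℕ => (k : ℤ)) hval
    simp only [val] at this
    push_cast at this
    rw [hy, hz, hy', hz']
    linarith
  set s : ℤ := 2 * y + 3 * z with hs
  set s' : ℤ := 2 * y' + 3 * z' with hs'
  have hprod : (s - s') * (s + s') = 5 * (z ^ 2 - z' ^ 2) := by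
    rw [hs, hs']
    linear_combination (-4) * hv
  have hzpos : 0 < z := by rw [hz]; positivity
  have hzpos' : 0 < z' := by rw [hz']; positivity
  have hzle : z ≤ 900 * (n : ℤ) := by
    rw [hz]
    have : (j : ℤ) < 100 * (n : ℤ) := by exact_mod_cast hj
    linarith
  have hzle' : z' ≤ 900 * (n : ℤ) := by
    rw [hz']
    have : (j' : ℤ) < 100 * (n : ℤ) := by exact_mod_cast hj'
    linarith
  have hnpos : (0 : ℤ) < (n : ℤ) := by exact_mod_cast hn
  have hyge : 9 * (n : ℤ) ^ 2 ≤ y := by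
    rw [hy]
    have : (0 : ℤ) ≤ (i : ℤ) := Int.natCast_nonneg i
    linarith
  have hyge' : 9 * (n : ℤ) ^ 2 ≤ y' := by
    rw [hy']
    have : (0 : ℤ) ≤ (i' : ℤ) := Int.natCast_nonneg i'
    linarith
  have hsum : 36 * (n : ℤ) ^ 2 ≤ s + s' := by
    rw [hs, hs']
    linarith
  have hn2 : (0 : ℤ) < (n : ℤ) ^ 2 := by positivity
  have hz2 : z ^ 2 ≤ 810000 * (n : ℤ) ^ 2 := by
    calc z ^ 2 ≤ (900 * (n : ℤ)) ^ 2 := pow_le_pow_left₀ hzpos.le hzle 2
      _ = 810000 * (n : ℤ) ^ 2 := by ring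
  have hz2' : z' ^ 2 ≤ 810000 * (n : ℤ) ^ 2 := by
    calc z' ^ 2 ≤ (900 * (n : ℤ)) ^ 2 := pow_le_pow_left₀ hzpos'.le hzle' 2
      _ = 810000 * (n : ℤ) ^ 2 := by ring
  have hne0 : s - s' ≠ 0 := by
    intro h0
    have h1 : z ^ 2 = z' ^ 2 := by
      rw [h0, zero_mul] at hprod
      linarith
    have h2 : z = z' := by
      have h3 : (z - z') * (z + z') = 0 := by linear_combination h1
      rcases mul_eq_zero.mp h3 with h4 | h4
      · linarith
      · linarith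
    have h3 : y = y' := by
      rw [hs, hs', h2] at h0
      linarith
    apply hne
    have h4 : (j' : ℤ) = j := by
      rw [hz, hz'] at h2
      linarith
    have h5 : (i' : ℤ) = i := by
      rw [hy, hy'] at h3
      linarith
    rw [Prod.mk.injEq]
    exact ⟨by exact_mod_cast h5, by exact_mod_cast h4⟩
  have hub : s - s' ≤ 112500 := by
    by_contra hcon
    push Not at hcon
    have h1 : 112501 * (36 * (n : ℤ) ^ 2) ≤ (s - s') * (s + s') :=
      mul_le_mul (by omega) hsum (by positivity) (by linarith)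
    have h2 : 0 ≤ z' ^ 2 := sq_nonneg z'
    rw [hprod] at h1
    linarith
  have hlb : -112500 ≤ s - s' := by
    by_contra hcon
    push Not at hcon
    have h1 : 112501 * (36 * (n : ℤ) ^ 2) ≤ (s' - s) * (s + s') :=
      mul_le_mul (by omega) hsum (by positivity) (by linarith)
    have h2 : 0 ≤ z ^ 2 := sq_nonneg z
    have h3 : (s' - s) * (s + s') = -(5 * (z ^ 2 - z' ^ 2)) := by rw [← hprod]; ring
    rw [h3] at h1
    linarith
  refine ⟨s - s', j, j', ⟨⟨by linarith, by linarith⟩, hj, hj'⟩, ?_⟩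
  unfold psi
  simp only [Prod.mk.injEq, and_true]
  have e1 : 5 * ((9 * (j : ℤ) + 1) ^ 2 - (9 * (j' : ℤ) + 1) ^ 2) = (s - s') * (s + s') := by
    rw [hprod]
  rw [e1, Int.mul_ediv_cancel_left _ hne0]
  have e2 : (s + s' + (s - s')) / 2 = s := by omega
  rw [e2]
  have e3 : (s - 3 * (9 * (j : ℤ) + 1)) / 2 = y := by
    rw [hs, ← hz]
    omega
  rw [e3]
  have e4 : (y - 1) / 9 = (n : ℤ) ^ 2 + i := by
    rw [hy]
    omega
  rw [e4]
  have e5 : (n : ℤ) ^ 2 + (i : ℤ) - (n : ℤ) ^ 2 = (i : ℤ) := by ring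
  rw [e5]
  exact Int.toNat_natCast i

lemma card_coll (n : ℕ) (hn : 0 < n) : (coll n).card ≤ 2250010000 * n ^ 2 := by
  obtain ⟨H, hH⟩ : ∃ H : ℤ, H = 112500 := ⟨_, rfl⟩
  refine (card_le_card (coll_subset n hn H (by omega))).trans (card_image_le.trans ?_)
  rw [card_product, card_product, card_range, Int.card_Icc]
  have : (H + 1 - (-H)).toNat = 225001 := by omega
  rw [this]
  ring_nf
  exact le_refl _

lemma exists_good (n : ℕ) (hn : 10 ^ 9 ≤ n) :
    ∃ t ∈ grid n, ∀ u v : ℕ, 0 < u → 0 < v → 2 * u ^ 2 + v ^ 2 + 3 * u ^ 2 * v ≠ val n t := by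
  by_contra hcon
  push Not at hcon
  have hpos : 0 < n := by omega
  have hinj : Set.InjOn (val n) ((grid n \ coll n : Finset (ℕ × ℕ)) : Set (ℕ × ℕ)) := by
    intro t ht t' ht' h
    rw [mem_coe, mem_sdiff] at ht ht'
    by_contra hne
    apply ht.2
    unfold coll
    rw [mem_filter]
    exact ⟨ht.1, t', ht'.1, fun h' => hne h'.symm, h.symm⟩
  have hsub : (grid n \ coll n).image (val n) ⊆
      (badPairs n).image (fun p => 2 * p.1 ^ 2 + p.2 ^ 2 + 3 * p.1 ^ 2 * p.2) := by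
    intro m hm
    rw [mem_image] at hm
    obtain ⟨t, ht, rfl⟩ := hm
    rw [mem_sdiff] at ht
    obtain ⟨u, v, hu, hv, huv⟩ := hcon t ht.1
    rw [mem_image]
    refine ⟨(u, v), mem_badPairs n u v hu hv ?_, huv⟩
    rw [huv]
    exact val_le n (by omega) t ht.1
  have hc := card_le_card hsub
  rw [card_image_of_injOn hinj] at hc
  have h1 := card_image_le (s := badPairs n)
    (f := fun p : ℕ × ℕ => 2 * p.1 ^ 2 + p.2 ^ 2 + 3 * p.1 ^ 2 * p.2)
  have h2 := card_badPairs n hpos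
  have h3 := card_coll n hpos
  have h4 := card_grid n
  have h5 : (grid n \ coll n).card + (coll n).card = (grid n).card :=
    card_sdiff_add_card_eq_card (filter_subset _ _)
  have h6 : 10 ^ 9 * n ^ 2 ≤ n ^ 3 := by
    calc 10 ^ 9 * n ^ 2 ≤ n * n ^ 2 := Nat.mul_le_mul_right _ hn
      _ = n ^ 3 := by ring
  have h7 : 1 ≤ n ^ 2 := Nat.one_le_pow _ _ hpos
  omega

/-- There are infinitely many `m > 1` such that `O(m)` is nonempty (and finite) and its number of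
elements is divisible by `3`. -/
theorem result :
    {m : ℕ | 1 < m ∧ (minimalTriples m).Nonempty ∧ (minimalTriples m).Finite ∧
      3 ∣ (minimalTriples m).ncard}.Infinite := by
  rw [Set.infinite_iff_exists_gt] 
  intro N
  obtain ⟨n, hn, hNn⟩ : ∃ n : ℕ, 10 ^ 9 ≤ n ∧ N ≤ n := ⟨N + 10 ^ 9, by omega, by omega⟩
  obtain ⟨⟨i, j⟩, ht, hgood⟩ := exists_good n hn
  have hmod : val n (i, j) % 9 = 6 := by
    simp only [val]
    have e : 1 + (9 * (n ^ 2 + i) + 1) ^ 2 + (9 * j + 1) ^ 2 +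
        3 * (9 * (n ^ 2 + i) + 1) * (9 * j + 1) =
        9 * (9 * (n ^ 2 + i) ^ 2 + 2 * (n ^ 2 + i) + 9 * j ^ 2 + 2 * j +
          27 * (n ^ 2 + i) * j + 3 * (n ^ 2 + i) + 3 * j) + 6 := by ring
    rw [e]
    omega
  have hbig : N < val n (i, j) := by
    simp only [val]
    have h1 : n ≤ n ^ 2 := Nat.le_self_pow (by norm_num) n
    have h2 : 9 * (n ^ 2 + i) + 1 ≤ (9 * (n ^ 2 + i) + 1) ^ 2 := Nat.le_self_pow (by norm_num) _
    have h3 := Nat.zero_le ((9 * j + 1) ^ 2)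
    have h4 := Nat.zero_le (3 * (9 * (n ^ 2 + i) + 1) * (9 * j + 1))
    omega
  have hd := three_dvd (val n (i, j)) (not_two_squares _ hmod) hgood
  refine ⟨val n (i, j), ⟨by omega, ?_, hd.1, hd.2⟩, hbig⟩
  refine ⟨(1, 9 * (n ^ 2 + i) + 1, 3 * 1 * (9 * (n ^ 2 + i) + 1) + (9 * j + 1)), ?_⟩
  simp only [minimalTriples, Set.mem_ofPred_eq]
  rw [minimal_iff]
  refine ⟨by norm_num, by omega, 9 * j + 1, rfl, ?_⟩
  simp only [val]
  ring

end Pool.Agent.Results.MP_208885_nt.InfinitelyMany
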